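import Mathlib
import Pool.Agent.U66.OPN.Struct
set_option autoImplicit false
/-! The third largest prime factor of an odd perfect number. -/
namespace Pool.Agent.U66.OPN
open Finset Pool.Agent.H325R2.Opn Pool.Agent.H325R2.OpnTwo
open Pool.Agent.Results.MP_f02ea4_nt.IthLargestPrime (reduce main euler)
open Pool.Agent.Results.MP_f02ea4_nt.SecondLargestPrime (no_cycle sq_pt five_fourths)

/-- exponents of three primes in an odd perfect number: the square of the part of `N` composed of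
`a`, `b`, `c` is at least `a ^ 2 b ^ 4 c ^ 5`, or the exponents are `1, 2, 2` in some order -/
theorem patterns {a b c i j k : ℕ} (hc1 : 1 ≤ c) (hcb : c < b) (hba : b < a) (hi : 0 < i) (hj : 0 < j)
    (hk : 0 < k) (hij : ¬ (Odd i ∧ Odd j)) (hik : ¬ (Odd i ∧ Odd k)) (hjk : ¬ (Odd j ∧ Odd k)) :
    a ^ 2 * b ^ 4 * c ^ 5 ≤ (a ^ i * b ^ j * c ^ k) ^ 2 ∨ (i = 1 ∧ j = 2 ∧ k = 2) ∨
      (i = 2 ∧ j = 1 ∧ k = 2) ∨ (i = 2 ∧ j = 2 ∧ k = 1) := by
  have hb1 : 1 ≤ b := by omega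
  have ha1 : 1 ≤ a := by omega
  -- `G ≥ a ^ x b ^ y c ^ z` for smaller exponents
  have hG : ∀ x y z : ℕ, x ≤ i → y ≤ j → z ≤ k →
      (a ^ x * b ^ y * c ^ z) ^ 2 ≤ (a ^ i * b ^ j * c ^ k) ^ 2 := by
    intro x y z hx hy hz
    apply Nat.pow_le_pow_left
    exact Nat.mul_le_mul (Nat.mul_le_mul (Nat.pow_le_pow_right ha1 hx)
      (Nat.pow_le_pow_right hb1 hy)) (Nat.pow_le_pow_right hc1 hz)
  have hcb' : c ≤ b := hcb.le
  have hba' : b ≤ a := hba.le
  have hca' : c ≤ a := by omega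
  have pw : ∀ {x y : ℕ} (n : ℕ), x ≤ y → x ^ n ≤ y ^ n := fun n h => Nat.pow_le_pow_left h n
  have one : ∀ {x : ℕ} (n : ℕ), 1 ≤ x → 1 ≤ x ^ n := fun n h => Nat.one_le_pow _ _ h
  have c3 : c ^ 5 ≤ a ^ 1 * b ^ 0 * c ^ 4 := by
    calc c ^ 5 = c * c ^ 4 := by ring
      _ ≤ a * c ^ 4 := Nat.mul_le_mul_right _ hca'
      _ = _ := by ring
  by_cases oi : Odd i
  · have ej : ¬ Odd j := fun h => hij ⟨oi, h⟩
    have ek : ¬ Odd k := fun h => hik ⟨oi, h⟩
    rw [Nat.not_odd_iff_even] at ej ek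
    obtain ⟨j', rfl⟩ := ej
    obtain ⟨k', rfl⟩ := ek
    by_cases h1 : 3 ≤ i
    · left
      refine le_trans ?_ (hG 3 2 2 h1 (by omega) (by omega))
      calc a ^ 2 * b ^ 4 * c ^ 5 = a ^ 2 * b ^ 4 * c ^ 4 * c := by ring
        _ ≤ a ^ 2 * b ^ 4 * c ^ 4 * a ^ 4 := Nat.mul_le_mul_left _
            (hca'.trans (Nat.le_self_pow (by norm_num) a))
        _ = _ := by ring
    · by_cases h2 : 3 ≤ j' + j'
      · left
        refine le_trans ?_ (hG 1 3 2 (by omega) h2 (by omega))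
        calc a ^ 2 * b ^ 4 * c ^ 5 = a ^ 2 * b ^ 4 * c ^ 4 * c := by ring
          _ ≤ a ^ 2 * b ^ 4 * c ^ 4 * b ^ 2 := Nat.mul_le_mul_left _
              (hcb'.trans (Nat.le_self_pow (by norm_num) b))
          _ = _ := by ring
      · by_cases h3 : 3 ≤ k' + k'
        · left
          refine le_trans ?_ (hG 1 2 3 (by omega) (by omega) h3)
          calc a ^ 2 * b ^ 4 * c ^ 5 ≤ a ^ 2 * b ^ 4 * c ^ 6 :=
                Nat.mul_le_mul_left _ (Nat.pow_le_pow_right hc1 (by norm_num))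
            _ = _ := by ring
        · right; left
          obtain ⟨i', hi'⟩ := oi
          omega
  · rw [Nat.not_odd_iff_even] at oi
    obtain ⟨i', rfl⟩ := oi
    by_cases oj : Odd j
    · have ek : ¬ Odd k := fun h => hjk ⟨oj, h⟩
      rw [Nat.not_odd_iff_even] at ek
      obtain ⟨k', rfl⟩ := ek
      by_cases h1 : 3 ≤ j
      · left
        refine le_trans ?_ (hG 2 3 2 (by omega) h1 (by omega))
        calc a ^ 2 * b ^ 4 * c ^ 5 = a ^ 2 * b ^ 4 * c ^ 4 * c := by ring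
          _ ≤ a ^ 2 * b ^ 4 * c ^ 4 * (a ^ 2 * b ^ 2) := Nat.mul_le_mul_left _
              ((hca'.trans (Nat.le_self_pow (by norm_num) a)).trans
                (Nat.le_mul_of_pos_right _ (one 2 hb1)))
          _ = _ := by ring
      · by_cases h2 : 3 ≤ i' + i'
        · left
          refine le_trans ?_ (hG 3 1 2 h2 (by omega) (by omega))
          calc a ^ 2 * b ^ 4 * c ^ 5 = (a ^ 2 * b ^ 2 * c ^ 4) * (b ^ 2 * c) := by ring
            _ ≤ (a ^ 2 * b ^ 2 * c ^ 4) * (a ^ 2 * a ^ 2) := Nat.mul_le_mul_left _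
                (Nat.mul_le_mul (pw 2 hba') (hca'.trans (Nat.le_self_pow (by norm_num) a)))
            _ = _ := by ring
        · by_cases h3 : 3 ≤ k' + k'
          · left
            refine le_trans ?_ (hG 2 1 3 (by omega) (by omega) h3)
            calc a ^ 2 * b ^ 4 * c ^ 5 = (a ^ 2 * b ^ 2 * c ^ 5) * (b ^ 2) := by ring
              _ ≤ (a ^ 2 * b ^ 2 * c ^ 5) * (a ^ 2) := Nat.mul_le_mul_left _ (pw 2 hba')
              _ ≤ (a ^ 2 * b ^ 2 * c ^ 5) * (a ^ 2) * c := Nat.le_mul_of_pos_right _ hc1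
              _ = _ := by ring
          · right; right; left
            obtain ⟨j', hj'⟩ := oj
            omega
    · rw [Nat.not_odd_iff_even] at oj
      obtain ⟨j', rfl⟩ := oj
      by_cases ok : Odd k
      · by_cases h1 : 3 ≤ k
        · left
          refine le_trans ?_ (hG 2 2 3 (by omega) (by omega) h1)
          calc a ^ 2 * b ^ 4 * c ^ 5 ≤ a ^ 2 * b ^ 4 * c ^ 5 * (a ^ 2 * c) :=
                Nat.le_mul_of_pos_right _ (Nat.mul_pos (one 2 ha1) hc1)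
            _ = _ := by ring
        · by_cases h2 : 3 ≤ i' + i'
          · left
            refine le_trans ?_ (hG 3 2 1 h2 (by omega) (by omega))
            calc a ^ 2 * b ^ 4 * c ^ 5 = (a ^ 2 * b ^ 4 * c ^ 2) * c ^ 3 := by ring
              _ ≤ (a ^ 2 * b ^ 4 * c ^ 2) * a ^ 3 := Nat.mul_le_mul_left _ (pw 3 hca')
              _ ≤ (a ^ 2 * b ^ 4 * c ^ 2) * a ^ 3 * a := Nat.le_mul_of_pos_right _ ha1
              _ = _ := by ring
          · by_cases h3 : 3 ≤ j' + j'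
            · left
              refine le_trans ?_ (hG 2 3 1 (by omega) h3 (by omega))
              calc a ^ 2 * b ^ 4 * c ^ 5 = (a ^ 2 * b ^ 4 * c ^ 2) * (c ^ 2 * c) := by ring
                _ ≤ (a ^ 2 * b ^ 4 * c ^ 2) * (a ^ 2 * b ^ 2) := Nat.mul_le_mul_left _
                    (Nat.mul_le_mul (pw 2 hca') (hcb'.trans (Nat.le_self_pow (by norm_num) b)))
                _ = _ := by ring
            · right; right; right
              obtain ⟨k', hk'⟩ := ok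
              omega
      · left
        rw [Nat.not_odd_iff_even] at ok
        obtain ⟨k', rfl⟩ := ok
        refine le_trans ?_ (hG 2 2 2 (by omega) (by omega) (by omega))
        calc a ^ 2 * b ^ 4 * c ^ 5 = (a ^ 2 * b ^ 4 * c ^ 4) * c := by ring
          _ ≤ (a ^ 2 * b ^ 4 * c ^ 4) * a ^ 2 := Nat.mul_le_mul_left _
              (hca'.trans (Nat.le_self_pow (by norm_num) a))
          _ = _ := by ring

/-- the numerical conclusions -/
theorem num_big {c M : ℕ} (hc : 131 ≤ c) (h : c ^ 3 * (c - 3) ^ 2 ≤ 324 * M ^ 2) :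
    c ^ 5 ≤ 75000 * M ^ 2 := by
  obtain ⟨d, rfl⟩ : ∃ d, c = d + 3 := ⟨c - 3, by omega⟩
  simp only [Nat.add_sub_cancel] at h
  have h1 : (d + 3) ^ 2 ≤ 4 * d ^ 2 := by nlinarith
  calc (d + 3) ^ 5 = (d + 3) ^ 3 * (d + 3) ^ 2 := by ring
    _ ≤ (d + 3) ^ 3 * (4 * d ^ 2) := Nat.mul_le_mul_left _ h1
    _ = 4 * ((d + 3) ^ 3 * d ^ 2) := by ring
    _ ≤ 4 * (324 * M ^ 2) := Nat.mul_le_mul_left _ h
    _ ≤ _ := by omega

theorem num_two {c X M : ℕ} (hc : 131 ≤ c) (hX : 2 * c ≤ 3 * X + 2) (h : X ^ 5 ≤ 3000 * M ^ 2) :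
    c ^ 5 ≤ 75000 * M ^ 2 := by
  have h1 : 64 * c ≤ 97 * X := by omega
  have h2 : (64 * c) ^ 5 ≤ (97 * X) ^ 5 := Nat.pow_le_pow_left h1 5
  have h3 : 1073741824 * c ^ 5 ≤ 8587340257 * X ^ 5 := by
    calc 1073741824 * c ^ 5 = (64 * c) ^ 5 := by ring
      _ ≤ _ := h2
      _ = _ := by ring
  omega

/-- The main theorem. -/
theorem third {N a b c : ℕ} (hodd : Odd N) (hperf : Nat.Perfect N) (ha : a ∈ N.primeFactors)
    (hb : b ∈ N.primeFactors) (hc : c ∈ N.primeFactors) (hcb : c < b) (hba : b < a) :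
    b ^ 6 * c ^ 9 ≤ 75000 * N ^ 2 ∧ (a ^ 2 * b ^ 4 * c ^ 9 ≤ 75000 * N ^ 2 ∨
      ((c ^ 2 ∣ a + 1 ∧ a ∣ b ^ 2 + b + 1 ∧ b ∣ c ^ 2 + c + 1) ∨
        (b ∣ a + 1 ∧ c ^ 2 ∣ b ^ 2 + b + 1 ∧ a ∣ c ^ 2 + c + 1))) := by
  classical
  have hN0 : 0 < N := hperf.2
  have hs : sg N = 2 * N := (Nat.perfect_iff_sum_divisors_eq_two_mul hN0).1 hperf
  have hap := Nat.prime_of_mem_primeFactors ha
  have hbp := Nat.prime_of_mem_primeFactors hb
  have hcp := Nat.prime_of_mem_primeFactors hc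
  have hao : a % 2 = 1 := Nat.odd_iff.1 (hodd.of_dvd_nat (Nat.dvd_of_mem_primeFactors ha))
  have hbo : b % 2 = 1 := Nat.odd_iff.1 (hodd.of_dvd_nat (Nat.dvd_of_mem_primeFactors hb))
  have hco : c % 2 = 1 := Nat.odd_iff.1 (hodd.of_dvd_nat (Nat.dvd_of_mem_primeFactors hc))
  have hc3 : 3 ≤ c := by have := hcp.two_le; omega
  have hb5 : 5 ≤ b := by omega
  have ha7 : 7 ≤ a := by omega
  have ha0 := hap.pos
  have hb0 := hbp.pos
  have hc0 := hcp.pos
  -- the second inequality implies the first one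
  have hred : a ^ 2 * b ^ 4 * c ^ 9 ≤ 75000 * N ^ 2 → b ^ 6 * c ^ 9 ≤ 75000 * N ^ 2 ∧
      (a ^ 2 * b ^ 4 * c ^ 9 ≤ 75000 * N ^ 2 ∨
        ((c ^ 2 ∣ a + 1 ∧ a ∣ b ^ 2 + b + 1 ∧ b ∣ c ^ 2 + c + 1) ∨
          (b ∣ a + 1 ∧ c ^ 2 ∣ b ^ 2 + b + 1 ∧ a ∣ c ^ 2 + c + 1))) := by
    intro h
    refine ⟨le_trans ?_ h, Or.inl h⟩
    calc b ^ 6 * c ^ 9 = b ^ 2 * (b ^ 4 * c ^ 9) := by ring
      _ ≤ a ^ 2 * (b ^ 4 * c ^ 9) := Nat.mul_le_mul_right _ (Nat.pow_le_pow_left hba.le 2)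
      _ = _ := by ring
  rcases Nat.lt_or_ge c 5 with hc5 | hc5
  · -- c = 3
    apply hred
    have hc3' : c = 3 := by omega
    have h1 := (Pool.Agent.Results.MP_f02ea4_nt.SecondLargestPrime.result N hodd hperf a b ha hb
      hba).1
    have h2 : 3125 ≤ b ^ 5 := by
      calc 3125 = 5 ^ 5 := by norm_num
        _ ≤ b ^ 5 := Nat.pow_le_pow_left hb5 5
    rw [hc3']
    have h3 : 3125 * (a ^ 2 * b ^ 4 * 3 ^ 9) ≤ 3125 * (75000 * N ^ 2) := by
      calc 3125 * (a ^ 2 * b ^ 4 * 3 ^ 9) ≤ b ^ 5 * (a ^ 2 * b ^ 4 * 3 ^ 9) :=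
            Nat.mul_le_mul_right _ h2
        _ = 19683 * (a ^ 2 * b ^ 9) := by ring
        _ ≤ 19683 * (3000 * N ^ 2) := Nat.mul_le_mul_left _ h1
        _ ≤ _ := by
          have : 19683 * (3000 * N ^ 2) = 59049000 * N ^ 2 := by ring
          have : 3125 * (75000 * N ^ 2) = 234375000 * N ^ 2 := by ring
          omega
    exact Nat.le_of_mul_le_mul_left h3 (by norm_num)
  have hT : ({a, b, c} : Finset ℕ) ⊆ N.primeFactors := by
    intro x hx
    simp only [Finset.mem_insert, Finset.mem_singleton] at hx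
    rcases hx with rfl | rfl | rfl
    · exact ha
    · exact hb
    · exact hc
  have hTp : ∀ q ∈ ({a, b, c} : Finset ℕ), q.Prime := fun q hq =>
    Nat.prime_of_mem_primeFactors (hT hq)
  have hX : ∀ q ∈ ({a, b, c} : Finset ℕ), c ≤ q := by
    intro x hx
    simp only [Finset.mem_insert, Finset.mem_singleton] at hx
    rcases hx with rfl | rfl | rfl
    · omega
    · omega
    · exact le_rfl
  have hcard : ({a, b, c} : Finset ℕ).card = 3 := by
    rw [Finset.card_eq_three]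
    exact ⟨a, b, c, hba.ne', by omega, hcb.ne', rfl⟩
  have hpt : pt N {a, b, c} =
      a ^ N.factorization a * b ^ N.factorization b * c ^ N.factorization c := by
    unfold pt
    rw [Finset.prod_insert (by simp; omega), Finset.prod_pair hcb.ne', mul_assoc]
  have hva : 0 < N.factorization a :=
    hap.factorization_pos_of_dvd hN0.ne' (Nat.dvd_of_mem_primeFactors ha)
  have hvb : 0 < N.factorization b :=
    hbp.factorization_pos_of_dvd hN0.ne' (Nat.dvd_of_mem_primeFactors hb)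
  have hvc : 0 < N.factorization c :=
    hcp.factorization_pos_of_dvd hN0.ne' (Nat.dvd_of_mem_primeFactors hc)
  set i := N.factorization a with hi
  set j := N.factorization b with hj
  set k := N.factorization c with hk
  have cab : (a ^ i * b ^ j).Coprime (c ^ k) := by
    apply Nat.Coprime.mul_left
    · exact Nat.Coprime.pow _ _ ((Nat.coprime_primes hap hcp).2 (by omega))
    · exact Nat.Coprime.pow _ _ ((Nat.coprime_primes hbp hcp).2 (by omega))
  have cb' : (a ^ i).Coprime (b ^ j) :=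
    Nat.Coprime.pow _ _ ((Nat.coprime_primes hap hbp).2 (by omega))
  have hsgG : sg (a ^ i * b ^ j * c ^ k) = sg (a ^ i) * sg (b ^ j) * sg (c ^ k) := by
    rw [sg_mul cab, sg_mul cb']
  have hne : ({a, b, c} : Finset ℕ) ≠ N.primeFactors := by
    intro h
    have h1 : N = a ^ i * b ^ j * c ^ k := by
      rw [← hpt]
      conv_lhs => rw [← Nat.prod_factorization_pow_eq_self hN0.ne']
      rw [Finsupp.prod, Nat.support_factorization, ← h]
      rfl
    have h2 := five_fourths (α := i) hap (by omega)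
    have h3 := five_fourths (α := j) hbp hb5
    have h4 := five_fourths (α := k) hcp hc5
    have h5 : sg (a ^ i) * sg (b ^ j) * sg (c ^ k) = 2 * (a ^ i * b ^ j * c ^ k) := by
      rw [← hsgG, ← h1, hs]
    have h6 : (4 * sg (a ^ i)) * (4 * sg (b ^ j)) * (4 * sg (c ^ k)) ≤
        (5 * a ^ i) * (5 * b ^ j) * (5 * c ^ k) :=
      Nat.mul_le_mul (Nat.mul_le_mul h2.le h3.le) h4.le
    have h7 : 0 < a ^ i * b ^ j * c ^ k := by positivity
    have h8 : 64 * (sg (a ^ i) * sg (b ^ j) * sg (c ^ k)) ≤ 125 * (a ^ i * b ^ j * c ^ k) := by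
      calc 64 * (sg (a ^ i) * sg (b ^ j) * sg (c ^ k))
          = (4 * sg (a ^ i)) * (4 * sg (b ^ j)) * (4 * sg (c ^ k)) := by ring
        _ ≤ _ := h6
        _ = _ := by ring
    rw [h5] at h8
    omega
  have hmain := main N hodd hperf {a, b, c} hT ⟨a, by simp⟩ hne c hX
  set U := N.primeFactors \ {a, b, c} with hU
  have hUs : U ⊆ N.primeFactors := Finset.sdiff_subset
  have hUp : ∀ q ∈ U, q.Prime := fun q hq => Nat.prime_of_mem_primeFactors (hUs hq)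
  have hUne : U.Nonempty := by
    rw [hU, Finset.sdiff_nonempty]
    intro h
    exact hne (Finset.Subset.antisymm hT h)
  have hsplit : pt N {a, b, c} * pt N U = N := pt_split hN0.ne' hT
  have hcop : (pt N {a, b, c}).Coprime (pt N U) := pt_coprime hTp hUp Finset.disjoint_sdiff
  have hM1 : 1 < pt N U := one_lt_pt hUs hUne
  have hδ0 := sg_pt_le (N := N) (X := c) {a, b, c} (fun q hq => ⟨hTp q hq, hX q hq⟩)
  rw [hcard] at hδ0 hmain
  have hG1 : 1 < pt N {a, b, c} := one_lt_pt hT ⟨a, by simp⟩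
  have hGH : pt N {a, b, c} < sg (pt N {a, b, c}) := sg_gt hG1
  have hδ : (sg (pt N {a, b, c}) - pt N {a, b, c}) * (c - 3) ≤ 3 * pt N {a, b, c} := by
    set G := pt N {a, b, c}
    obtain ⟨δ, hδ⟩ : ∃ δ, sg G = G + δ := ⟨sg G - G, by omega⟩
    obtain ⟨Z, hZ⟩ : ∃ Z, c = Z + 3 := ⟨c - 3, by omega⟩
    rw [hδ] at hδ0 ⊢
    rw [hZ] at hδ0 ⊢
    simp only [Nat.add_sub_cancel, Nat.add_sub_cancel_left]
    nlinarith
  have hMA : c ^ 2 ≤ 24 * pt N U := by
    have h1 : pt N {a, b, c} * c ^ 2 ≤ pt N {a, b, c} * (24 * pt N U) := by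
      calc pt N {a, b, c} * c ^ 2 = c ^ 2 * pt N {a, b, c} := by ring
        _ ≤ 8 * 3 * N := hmain
        _ = 8 * 3 * (pt N {a, b, c} * pt N U) := by rw [hsplit]
        _ = _ := by ring
    exact Nat.le_of_mul_le_mul_left h1 (by omega)
  have hsm : sg (pt N {a, b, c} * pt N U) = 2 * (pt N {a, b, c} * pt N U) := by rw [hsplit]; exact hs
  have hN2 : N ^ 2 = pt N {a, b, c} ^ 2 * pt N U ^ 2 := by
    conv_lhs => rw [← hsplit]
    ring
  set M := pt N U with hMdef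
  have h24 : (c ^ 2) ^ 2 ≤ (24 * M) ^ 2 := Nat.pow_le_pow_left hMA 2
  rw [hpt] at hδ hGH hG1 hcop hsm hN2 hsplit
  have hpat := patterns (a := a) (b := b) (c := c) (i := i) (j := j) (k := k) (by omega) hcb hba
    hva hvb hvc (fun h => euler hodd hperf ha hb hba.ne' h.1 h.2)
    (fun h => euler hodd hperf ha hc (by omega) h.1 h.2)
    (fun h => euler hodd hperf hb hc hcb.ne' h.1 h.2)
  rcases hpat with hpat | hpat
  · -- large `G`
    apply hred
    rw [hN2]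
    calc a ^ 2 * b ^ 4 * c ^ 9 = (a ^ 2 * b ^ 4 * c ^ 5) * (c ^ 2) ^ 2 := by ring
      _ ≤ (a ^ i * b ^ j * c ^ k) ^ 2 * (24 * M) ^ 2 := Nat.mul_le_mul hpat h24
      _ = 576 * ((a ^ i * b ^ j * c ^ k) ^ 2 * M ^ 2) := by ring
      _ ≤ _ := Nat.mul_le_mul_right _ (by norm_num)
  -- the exponents are 1, 2, 2 in some order
  have hG4 : a ^ 2 * b ^ 4 * c ^ 4 ≤ (a ^ i * b ^ j * c ^ k) ^ 2 := by
    rcases hpat with ⟨h1, h2, h3⟩ | ⟨h1, h2, h3⟩ | ⟨h1, h2, h3⟩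
    · rw [h1, h2, h3]; apply le_of_eq; ring
    · rw [h1, h2, h3]
      calc a ^ 2 * b ^ 4 * c ^ 4 = (a ^ 2 * b ^ 2 * c ^ 4) * b ^ 2 := by ring
        _ ≤ (a ^ 2 * b ^ 2 * c ^ 4) * a ^ 2 :=
          Nat.mul_le_mul_left _ (Nat.pow_le_pow_left hba.le 2)
        _ = _ := by ring
    · rw [h1, h2, h3]
      calc a ^ 2 * b ^ 4 * c ^ 4 = (a ^ 2 * b ^ 4 * c ^ 2) * c ^ 2 := by ring
        _ ≤ (a ^ 2 * b ^ 4 * c ^ 2) * a ^ 2 :=
          Nat.mul_le_mul_left _ (Nat.pow_le_pow_left (by omega) 2)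
        _ = _ := by ring
  -- it is enough to bound `M`
  have hfin : c ^ 5 ≤ 75000 * M ^ 2 → a ^ 2 * b ^ 4 * c ^ 9 ≤ 75000 * N ^ 2 := by
    intro h
    rw [hN2]
    calc a ^ 2 * b ^ 4 * c ^ 9 = (a ^ 2 * b ^ 4 * c ^ 4) * c ^ 5 := by ring
      _ ≤ (a ^ i * b ^ j * c ^ k) ^ 2 * (75000 * M ^ 2) := Nat.mul_le_mul hG4 h
      _ = _ := by ring
  rcases Nat.lt_or_ge c 131 with hc131 | hc131
  · apply hred
    apply hfin
    calc c ^ 5 = c * (c ^ 2) ^ 2 := by ring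
      _ ≤ 130 * (24 * M) ^ 2 := Nat.mul_le_mul (by omega) h24
      _ = 74880 * M ^ 2 := by ring
      _ ≤ _ := Nat.mul_le_mul_right _ (by norm_num)
  -- squareness of `M`
  have hSq : Sq M := by
    apply sq_pt
    intro q hq
    have hqN := hUs hq
    refine ⟨hUp q hq, hodd.of_dvd_nat (Nat.dvd_of_mem_primeFactors hqN), ?_⟩
    by_contra hcon
    rw [Nat.not_even_iff_odd] at hcon
    have hqab : q ≠ a ∧ q ≠ b ∧ q ≠ c := by
      rw [hU, Finset.mem_sdiff] at hq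
      simp only [Finset.mem_insert, Finset.mem_singleton, not_or] at hq
      exact hq.2
    rcases hpat with ⟨h1, h2, h3⟩ | ⟨h1, h2, h3⟩ | ⟨h1, h2, h3⟩
    · exact euler hodd hperf hqN ha hqab.1 hcon (by rw [← hi, h1]; exact odd_one)
    · exact euler hodd hperf hqN hb hqab.2.1 hcon (by rw [← hj, h2]; exact odd_one)
    · exact euler hodd hperf hqN hc hqab.2.2 hcon (by rw [← hk, h3]; exact odd_one)
  obtain ⟨G', H', t, hG'1, hGH', hHG, hG'd, hsM, h2M, ht⟩ := reduce hG1 hM1 hcop hsm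
  have hG'p : ∀ p : ℕ, p.Prime → p ∣ G' → p = a ∨ p = b ∨ p = c := by
    intro p hp hd
    have h1 : p ∣ a ^ i * b ^ j * c ^ k := hd.trans hG'd
    rcases hp.dvd_mul.1 h1 with h1 | h1
    · rcases hp.dvd_mul.1 h1 with h1 | h1
      · exact Or.inl ((Nat.prime_dvd_prime_iff_eq hp hap).1 (hp.dvd_of_dvd_pow h1))
      · exact Or.inr (Or.inl ((Nat.prime_dvd_prime_iff_eq hp hbp).1 (hp.dvd_of_dvd_pow h1)))
    · exact Or.inr (Or.inr ((Nat.prime_dvd_prime_iff_eq hp hcp).1 (hp.dvd_of_dvd_pow h1)))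
  have hG'c : ∀ p : ℕ, p.Prime → p ∣ G' → c ≤ p := by
    intro p hp hd
    rcases hG'p p hp hd with h | h | h <;> omega
  have hG't : G' * t ≤ 2 * M := by rw [h2M]; exact Nat.mul_le_mul_right _ hGH'.le
  have hG'2M : G' ≤ 2 * M := le_trans (Nat.le_mul_of_pos_right _ ht) hG't
  obtain ⟨p₁, hp₁, k₁, hk₁⟩ := Nat.exists_prime_and_dvd hG'1.ne'
  have hk₁0 : k₁ ≠ 0 := by rintro rfl; omega
  have hp₁d : p₁ ∣ G' := ⟨k₁, hk₁⟩
  rcases Nat.eq_or_lt_of_le (Nat.one_le_iff_ne_zero.2 hk₁0) with h1 | h1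
  · -- `G'` is a prime
    have hG'q : G' = p₁ := by rw [hk₁, ← h1, mul_one]
    have hoddM : Odd M := hSq.2.1
    have hM0 : 0 < M := by omega
    obtain ⟨r, f, w, hr, hr3, -, -, hMw, hcw, hrw, hw, -, hdr⟩ :=
      comp hM0 hoddM hp₁ (hsM ▸ (hp₁d.mul_right t))
    obtain ⟨u, hu⟩ := hdr
    have ht' : t = u * sg w := by
      have e1 : p₁ * t = p₁ * (u * sg w) := by
        rw [← hG'q, ← hsM, hMw, sg_mul hcw, hu, hG'q]; ring
      exact Nat.eq_of_mul_eq_mul_left hp₁.pos e1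
    have e2 : 2 * (r ^ f * w) = H' * (u * sg w) := by rw [← hMw, ← ht']; exact h2M
    have h3 := key1 hr hr3 hw hrw (by omega) hGH (by omega) (by rw [hu, hG'q]) hHG e2
    rw [← ht'] at h3
    have h4 : c - 3 ≤ 9 * t := by
      have e3 : (a ^ i * b ^ j * c ^ k) * (c - 3) ≤ (a ^ i * b ^ j * c ^ k) * (9 * t) := by
        calc (a ^ i * b ^ j * c ^ k) * (c - 3)
            ≤ (3 * t * (sg (a ^ i * b ^ j * c ^ k) - a ^ i * b ^ j * c ^ k)) * (c - 3) :=
              Nat.mul_le_mul_right _ h3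
          _ = 3 * t * ((sg (a ^ i * b ^ j * c ^ k) - a ^ i * b ^ j * c ^ k) * (c - 3)) := by ring
          _ ≤ 3 * t * (3 * (a ^ i * b ^ j * c ^ k)) := Nat.mul_le_mul_left _ hδ
          _ = _ := by ring
      exact Nat.le_of_mul_le_mul_left e3 (by positivity)
    have h5 : p₁ * (c - 3) ≤ 18 * M := by
      calc p₁ * (c - 3) ≤ p₁ * (9 * t) := Nat.mul_le_mul_left _ h4
        _ = 9 * (G' * t) := by rw [hG'q]; ring
        _ ≤ 9 * (2 * M) := Nat.mul_le_mul_left _ hG't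
        _ = _ := by ring
    have h6 : p₁ ^ 2 * (c - 3) ^ 2 ≤ 324 * M ^ 2 := by
      calc p₁ ^ 2 * (c - 3) ^ 2 = (p₁ * (c - 3)) ^ 2 := by ring
        _ ≤ (18 * M) ^ 2 := Nat.pow_le_pow_left h5 2
        _ = _ := by ring
    rcases Nat.lt_or_ge (p₁ ^ 2) (c ^ 3) with hq | hq
    · -- nearly complete cancellation
      have hq3 := hG'p p₁ hp₁ hp₁d
      rcases hpat with ⟨e1, e2, e3⟩ | ⟨e1, e2, e3⟩ | ⟨e1, e2, e3⟩
      · rw [hsgG, hG'q, e1, e2, e3, pow_one, sg_p hap, sg_sq hbp, sg_sq hcp] at hHG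
        rw [e1, e2, e3, pow_one] at hN2
        have hd4 : c ^ 2 ≤ 4 * (c - 3) ^ 2 := by
          obtain ⟨d, rfl⟩ : ∃ d, c = d + 3 := ⟨c - 3, by omega⟩
          simp only [Nat.add_sub_cancel]
          nlinarith
        rcases caseA hap hbp hcp hao hbo hco hcb hba hq3 hq hHG with h | ⟨hqb, h, hE⟩
        · omega
        · refine ⟨?_, Or.inr hE⟩
          rw [hqb] at h6
          rw [hN2]
          have e4 : c ^ 3 * (b ^ 2 * c ^ 2) ≤ (28 * a ^ 2) * (4 * (324 * M ^ 2)) := by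
            apply Nat.mul_le_mul h
            calc b ^ 2 * c ^ 2 ≤ b ^ 2 * (4 * (c - 3) ^ 2) := Nat.mul_le_mul_left _ hd4
              _ = 4 * (b ^ 2 * (c - 3) ^ 2) := by ring
              _ ≤ _ := Nat.mul_le_mul_left _ h6
          calc b ^ 6 * c ^ 9 = b ^ 4 * c ^ 4 * (c ^ 3 * (b ^ 2 * c ^ 2)) := by ring
            _ ≤ b ^ 4 * c ^ 4 * ((28 * a ^ 2) * (4 * (324 * M ^ 2))) := Nat.mul_le_mul_left _ e4
            _ = 36288 * ((a * b ^ 2 * c ^ 2) ^ 2 * M ^ 2) := by ring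
            _ ≤ _ := Nat.mul_le_mul_right _ (by norm_num)
      · rw [hsgG, hG'q, e1, e2, e3, pow_one, sg_sq hap, sg_p hbp, sg_sq hcp] at hHG
        exfalso
        have := caseB hap hbp hcp hao hbo hco hcb hba hq3 hq (by
          rw [hHG]; ring)
        omega
      · rw [hsgG, hG'q, e1, e2, e3, pow_one, sg_sq hap, sg_sq hbp, sg_p hcp] at hHG
        exact (caseC hap hbp hcp hao hbo hco hcb hba hq3 (by rw [hHG]; ring)).elim
    · apply hred
      apply hfin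
      apply num_big hc131
      exact le_trans (Nat.mul_le_mul_right _ hq) h6
  · obtain ⟨p₂, hp₂, k₂, hk₂⟩ := Nat.exists_prime_and_dvd h1.ne'
    have hk₂0 : k₂ ≠ 0 := by rintro rfl; omega
    have hp₂d : p₂ ∣ G' := by rw [hk₁, hk₂]; exact ⟨p₁ * k₂, by ring⟩
    apply hred
    apply hfin
    rcases Nat.eq_or_lt_of_le (Nat.one_le_iff_ne_zero.2 hk₂0) with h2 | h2
    · -- two primes
      have hG'q : G' = p₁ * p₂ := by rw [hk₁, hk₂, ← h2, mul_one]
      have hXc : 2 * c / 3 ≤ c := by omega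
      apply num_two (X := 2 * c / 3) hc131 (by omega)
      refine two_main (q₁ := p₁) (q₂ := p₂) hSq (by omega) hGH hGH' hp₁ hp₂ hG'q hHG hsM h2M
        (hXc.trans (hG'c p₁ hp₁ hp₁d)) (hXc.trans (hG'c p₂ hp₂ hp₂d)) ?_ ?_
      · have e1 : 3 * (2 * c / 3 - 2) ≤ 2 * (c - 3) := by omega
        have e2 : 3 * ((sg (a ^ i * b ^ j * c ^ k) - a ^ i * b ^ j * c ^ k) * (2 * c / 3 - 2)) ≤
            3 * (2 * (a ^ i * b ^ j * c ^ k)) := by
          calc 3 * ((sg (a ^ i * b ^ j * c ^ k) - a ^ i * b ^ j * c ^ k) * (2 * c / 3 - 2))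
              = (sg (a ^ i * b ^ j * c ^ k) - a ^ i * b ^ j * c ^ k) * (3 * (2 * c / 3 - 2)) := by
                ring
            _ ≤ (sg (a ^ i * b ^ j * c ^ k) - a ^ i * b ^ j * c ^ k) * (2 * (c - 3)) :=
              Nat.mul_le_mul_left _ e1
            _ = 2 * ((sg (a ^ i * b ^ j * c ^ k) - a ^ i * b ^ j * c ^ k) * (c - 3)) := by ring
            _ ≤ 2 * (3 * (a ^ i * b ^ j * c ^ k)) := Nat.mul_le_mul_left _ hδ
            _ = _ := by ring
        exact Nat.le_of_mul_le_mul_left e2 (by norm_num)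
      · have e1 : 3 * (2 * c / 3) ≤ 2 * c := by omega
        have e2 : (3 * (2 * c / 3)) ^ 2 ≤ (2 * c) ^ 2 := Nat.pow_le_pow_left e1 2
        have e3 : 9 * (2 * c / 3) ^ 2 ≤ 4 * c ^ 2 := by
          calc 9 * (2 * c / 3) ^ 2 = (3 * (2 * c / 3)) ^ 2 := by ring
            _ ≤ _ := e2
            _ = _ := by ring
        omega
    · -- at least three primes
      obtain ⟨p₃, hp₃, k₃, hk₃⟩ := Nat.exists_prime_and_dvd h2.ne'
      have hk₃0 : 0 < k₃ := by
        rcases Nat.eq_zero_or_pos k₃ with h | h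
        · rw [h, mul_zero] at hk₃; omega
        · exact h
      have hp₃d : p₃ ∣ G' := by rw [hk₁, hk₂, hk₃]; exact ⟨p₁ * (p₂ * k₃), by ring⟩
      have e1 : c ^ 3 ≤ G' := by
        calc c ^ 3 = c * (c * (c * 1)) := by ring
          _ ≤ p₁ * (p₂ * (p₃ * k₃)) := Nat.mul_le_mul (hG'c p₁ hp₁ hp₁d)
              (Nat.mul_le_mul (hG'c p₂ hp₂ hp₂d) (Nat.mul_le_mul (hG'c p₃ hp₃ hp₃d) hk₃0))
          _ = G' := by rw [hk₁, hk₂, hk₃]
      calc c ^ 5 ≤ c ^ 6 := Nat.pow_le_pow_right (by omega) (by norm_num)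
        _ = (c ^ 3) ^ 2 := by ring
        _ ≤ (2 * M) ^ 2 := Nat.pow_le_pow_left (e1.trans hG'2M) 2
        _ = 4 * M ^ 2 := by ring
        _ ≤ _ := Nat.mul_le_mul_right _ (by norm_num)

end Pool.Agent.U66.OPN
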